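import Pool.Agent.helper23.HB.Asm4

/-!
# Hyperbolic branching Brownian motion with radial drift : boundary dimensions
-/

open MeasureTheory ProbabilityTheory
open scoped ENNReal NNReal

namespace Pool.Agent.Results.MP_435341_pr.RadialDriftDimensions

open Pool.Agent.helper23.HB

/-- For every branching rate `β > 0` and every radial drift `λ > -1/2`, almost surely the limit
measure and the limit set of hyperbolic branching Brownian motion with radial drift, started at
the origin, have the dimensions predicted by the two formulas. -/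
theorem result (Ω : Type) [MeasurableSpace Ω] (P : Measure Ω) [IsProbabilityMeasure P]
    (β lam : ℝ) (hβ : 0 < β) (hlam : -1 / 2 < lam)
    (T : Lab → Ω → ℝ) (B W : Lab → ℝ≥0 → Ω → ℝ) (ρ : Lab → ℝ → Ω → ℝ) (D : Lab → ℝ → Ω → ℂ)
    (H : HyperbolicBBM β lam P T B W ρ D) :
    ∀ᵐ ω ∂P, (∀ t, (Alive (fun u => T u ω) t).Finite) ∧
      (∃ μ : Measure ℂ, IsLim (fun u => T u ω) (posD T ρ D ω) μ ∧
        dimM μ = ENNReal.ofReal (min (2 * β / (2 * lam + 1)) 1)) ∧
      dimH (LSet (fun u => T u ω) (posD T ρ D ω)) = ENNReal.ofReal (lamDim β lam) :=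
  Asm.final2 P β lam hβ hlam T B W ρ D H

end Pool.Agent.Results.MP_435341_pr.RadialDriftDimensions
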